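import Pool.Agent.Helper78.FB.PdCalc

/-!
# FB-04 Straight: local coordinates (short)

`straighten`: the map `Ψ y = (g_0 y, g_1 y, g_2 y)` into `E` is smooth, its derivative at `z` is the linear map with matrix `(pd j (g i) z)`, invertible as the determinant is not `0`
(`LinearEquiv.ofIsUnitDet`/`Matrix.toLin`, `ContinuousLinearEquiv`, finite dimension). `ContDiffAt.toOpenPartialHomeomorph` (inverse function theorem in `Mathlib/Analysis/Calculus/InverseFunctionTheorem/ContDiff.lean`);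
for the smoothness of `e.symm` at every point of the target shrink the source to the open set where the determinant is not `0` (`OpenPartialHomeomorph.restrOpen`, `OpenPartialHomeomorph.contDiffAt_symm`).

`det_cross`: expand (`Matrix.det_fin_three`, `ring`).
-/

set_option autoImplicit false

open MeasureTheory Filter
open scoped ContDiff Topology

namespace Pool.Agent.Helper78.FB

/-- the map with the coordinates `g i` -/
private noncomputable def Ps (g : Fin 3 → E → ℝ) (y : E) : E := WithLp.toLp 2 (fun i => g i y)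

private theorem contDiff_Ps {g : Fin 3 → E → ℝ} (hg : ∀ i, ContDiff ℝ ∞ (g i)) :
    ContDiff ℝ ∞ (Ps g) :=
  contDiff_euclidean.2 hg

private theorem fderiv_Ps {g : Fin 3 → E → ℝ} (hg : ∀ i, ContDiff ℝ ∞ (g i)) (y v : E)
    (i : Fin 3) : fderiv ℝ (Ps g) y v i = ∑ k, v k * pd k (g i) y := by
  rw [← fderiv_eq (hg i) y v]
  have h1 : HasFDerivAt (Ps g) (fderiv ℝ (Ps g) y) y :=
    (((contDiff_Ps hg).differentiable (by simp)) y).hasFDerivAt
  have h2 : HasFDerivAt (g i) ((EuclideanSpace.proj i : E →L[ℝ] ℝ).comp (fderiv ℝ (Ps g) y)) y :=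
    (EuclideanSpace.proj i : E →L[ℝ] ℝ).hasFDerivAt.comp y h1
  rw [h2.fderiv]
  rfl

private theorem exists_equiv {g : Fin 3 → E → ℝ} (hg : ∀ i, ContDiff ℝ ∞ (g i)) (y : E)
    (hdet : (Matrix.of fun i j : Fin 3 => pd j (g i) y).det ≠ 0) :
    ∃ L : E ≃L[ℝ] E, HasFDerivAt (Ps g) (L : E →L[ℝ] E) y := by
  have hinj : Function.Injective ((fderiv ℝ (Ps g) y : E →L[ℝ] E) : E →ₗ[ℝ] E) := by
    rw [← LinearMap.ker_eq_bot, LinearMap.ker_eq_bot']
    intro v hv
    have h1 : (Matrix.of fun i j : Fin 3 => pd j (g i) y).mulVec (fun k => v k) = 0 := by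
      funext i
      have h2 := fderiv_Ps hg y v i
      have h3 : fderiv ℝ (Ps g) y v = 0 := hv
      rw [h3] at h2
      have h4 : (0 : E) i = 0 := rfl
      rw [h4] at h2
      rw [Matrix.mulVec, dotProduct, Pi.zero_apply, h2]
      exact Finset.sum_congr rfl fun k _ => mul_comm _ _
    have h5 := Matrix.eq_zero_of_mulVec_eq_zero hdet h1
    ext k
    exact congrFun h5 k
  let L0 : E ≃ₗ[ℝ] E := LinearEquiv.ofInjectiveEndo _ hinj
  refine ⟨L0.toContinuousLinearEquiv, ?_⟩
  have h1 : HasFDerivAt (Ps g) (fderiv ℝ (Ps g) y) y :=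
    (((contDiff_Ps hg).differentiable (by simp)) y).hasFDerivAt
  have h2 : ((L0.toContinuousLinearEquiv : E ≃L[ℝ] E) : E →L[ℝ] E) = fderiv ℝ (Ps g) y := by
    ext1 v
    rfl
  rw [h2]
  exact h1

theorem straighten (g : Fin 3 → E → ℝ) (hg : ∀ i, ContDiff ℝ ∞ (g i)) (z : E)
    (hdet : (Matrix.of fun i j : Fin 3 => pd j (g i) z).det ≠ 0) :
    ∃ e : OpenPartialHomeomorph E E, z ∈ e.source ∧ (∀ y ∈ e.source, ∀ i, e y i = g i y) ∧
      ∀ x ∈ e.target, ContDiffAt ℝ 1 e.symm x := by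
  obtain ⟨L, hL⟩ := exists_equiv hg z hdet
  have hc := (contDiff_Ps hg)
  have hn : (∞ : WithTop ℕ∞) ≠ 0 := by simp
  let e0 : OpenPartialHomeomorph E E := hc.contDiffAt.toOpenPartialHomeomorph (Ps g) hL hn
  have hD : IsOpen {y : E | (Matrix.of fun i j : Fin 3 => pd j (g i) y).det ≠ 0} := by
    refine isOpen_ne_fun ?_ continuous_const
    refine Continuous.matrix_det ?_
    refine continuous_matrix fun i j => ?_
    exact (contDiff_pd j (hg i)).continuous
  refine ⟨e0.restrOpen _ hD, ⟨?_, hdet⟩, ?_, ?_⟩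
  · exact hc.contDiffAt.mem_toOpenPartialHomeomorph_source hL hn
  · intro y _ i
    rfl
  · intro x hx
    have hs := (e0.restrOpen _ hD).map_target hx
    obtain ⟨L', hL'⟩ := exists_equiv hg ((e0.restrOpen _ hD).symm x) hs.2
    exact (e0.restrOpen _ hD).contDiffAt_symm hx hL' ((hc.of_le (by simp)).contDiffAt)

theorem det_cross (a b : Fin 3 → ℝ) :
    (Matrix.of ![a, b, ![a 1 * b 2 - a 2 * b 1, a 2 * b 0 - a 0 * b 2, a 0 * b 1 - a 1 * b 0]]).det =
      (∑ i, a i ^ 2) * (∑ i, b i ^ 2) - (∑ i, a i * b i) ^ 2 := by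
  simp only [Matrix.det_fin_three, Fin.sum_univ_three, Matrix.of_apply, Matrix.cons_val_zero,
    Matrix.cons_val_one, Matrix.cons_val]
  ring

end Pool.Agent.Helper78.FB
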