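import Pool.Agent.Helper78.FB.Eik
import Pool.Agent.Helper78.FB.Straight

/-!
# FB-06 Dense: boundary points are limits of interior points

`p ∈ bdry F`. `a = ∇F(p)`, `b = 2 p` (the gradient of `|y| ^ 2`): `|a| ^ 2 |b| ^ 2 - (a . b) ^ 2 = 4 (1 - (a . p) ^ 2) > 0` (`grad_sq`, `h.transverse`). `straighten` with `g_0 = F`, `g_1 = |y| ^ 2 = ∑ y_i ^ 2`,
`g_2 = ∑ c_i y_i`, `c = a × b` (`det_cross`). `e p = (0, 1, t)`; the points `e.symm (0, 1 - s, t)`, `s > 0` small, are in `inn F` and tend to `p`.
-/

set_option autoImplicit false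

open MeasureTheory Filter
open scoped ContDiff Topology

namespace Pool.Agent.Helper78.FB

variable {F : E → ℝ}

private theorem pd_sqs (j : Fin 3) (p : E) : pd j (fun y : E => ∑ k, y k * y k) p = 2 * p j := by
  rw [pd_sum j Finset.univ (fun k (y : E) => y k * y k)
    (fun k _ => (contDiff_coord k).mul (contDiff_coord k))]
  have h1 : ∀ k : Fin 3, pd j (fun y : E => y k * y k) p
      = (if j = k then 1 else 0) * p k + p k * (if j = k then 1 else 0) := by
    intro k
    rw [pd_mul j (contDiff_coord k) (contDiff_coord k), pd_coord j k]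
  show ∑ k, pd j (fun y : E => y k * y k) p = 2 * p j
  rw [Finset.sum_congr rfl fun k _ => h1 k, Finset.sum_add_distrib]
  simp only [ite_mul, one_mul, zero_mul, mul_ite, mul_one, mul_zero, Finset.sum_ite_eq,
    Finset.mem_univ, if_true]
  ring

private theorem pd_lin (c : Fin 3 → ℝ) (j : Fin 3) (p : E) :
    pd j (fun y : E => ∑ k, c k * y k) p = c j := by
  rw [pd_sum j Finset.univ (fun k (y : E) => c k * y k)
    (fun k _ => contDiff_const.mul (contDiff_coord k))]
  have h1 : ∀ k : Fin 3, pd j (fun y : E => c k * y k) p = c k * (if j = k then 1 else 0) := by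
    intro k
    rw [pd_const_mul j (c k) (contDiff_coord k), pd_coord j k]
  show ∑ k, pd j (fun y : E => c k * y k) p = c j
  rw [Finset.sum_congr rfl fun k _ => h1 k]
  simp only [mul_ite, mul_one, mul_zero, Finset.sum_ite_eq, Finset.mem_univ, if_true]

theorem bdry_subset (h : FBMS F) : bdry F ⊆ closure (inn F) := by
  intro p hp
  have hps : p ∈ surf F := ⟨hp.1.le, hp.2⟩
  have hgs := grad_sq h hps
  have htr := h.transverse p hp
  have hpn : ∑ k, p k ^ 2 = 1 := by
    rw [← norm_sq, hp.1, one_pow]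
  set a : Fin 3 → ℝ := fun i => pd i F p with ha
  set b : Fin 3 → ℝ := fun i => 2 * p i with hb
  set c : Fin 3 → ℝ := ![a 1 * b 2 - a 2 * b 1, a 2 * b 0 - a 0 * b 2, a 0 * b 1 - a 1 * b 0]
    with hc
  have hdet : (Matrix.of ![a, b, c]).det ≠ 0 := by
    rw [hc, det_cross]
    have h1 : ∑ i, a i ^ 2 = 1 := hgs
    have h2 : ∑ i, b i ^ 2 = 4 := by
      have h3 : ∑ i, b i ^ 2 = 4 * ∑ k, p k ^ 2 := by
        rw [Finset.mul_sum]
        refine Finset.sum_congr rfl fun k _ => ?_
        rw [hb]
        ring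
      rw [h3, hpn, mul_one]
    have h4 : ∑ i, a i * b i = 2 * ∑ i, p i * pd i F p := by
      rw [Finset.mul_sum]
      refine Finset.sum_congr rfl fun k _ => ?_
      rw [ha, hb]
      ring
    rw [h1, h2, h4]
    intro h5
    nlinarith
  let g : Fin 3 → E → ℝ := ![F, fun y => ∑ k, y k * y k, fun y => ∑ k, c k * y k]
  have hg : ∀ i, ContDiff ℝ ∞ (g i) := by
    intro i
    fin_cases i
    · exact h.smooth
    · show ContDiff ℝ ∞ (fun y : E => ∑ k, y k * y k)
      exact ContDiff.sum fun k _ => (contDiff_coord k).mul (contDiff_coord k)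
    · show ContDiff ℝ ∞ (fun y : E => ∑ k, c k * y k)
      exact ContDiff.sum fun k _ => contDiff_const.mul (contDiff_coord k)
  have hmat : (Matrix.of fun i j : Fin 3 => pd j (g i) p) = Matrix.of ![a, b, c] := by
    ext i j
    fin_cases i
    · rfl
    · exact pd_sqs j p
    · exact pd_lin c j p
  obtain ⟨e, hpe, heg, -⟩ := straighten g hg p (by rw [hmat]; exact hdet)
  have hept : e p ∈ e.target := e.map_source hpe
  let x : ℝ → E := fun s => e p - s • EuclideanSpace.single 1 (1 : ℝ)
  have hx0 : x 0 = e p := by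
    show e p - (0 : ℝ) • EuclideanSpace.single 1 (1 : ℝ) = e p
    rw [zero_smul, sub_zero]
  have hxc : Continuous x := continuous_const.sub (continuous_id.smul continuous_const)
  have hxt : Tendsto x (𝓝[>] 0) (𝓝 (e p)) := by
    have h1 := hxc.tendsto 0
    rw [hx0] at h1
    exact h1.mono_left nhdsWithin_le_nhds
  have hsymm : Tendsto (fun s => e.symm (x s)) (𝓝[>] 0) (𝓝 p) := by
    have h1 : ContinuousAt e.symm (e p) := e.symm.continuousAt hept
    have h2 := h1.tendsto.comp hxt
    rw [e.left_inv hpe] at h2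
    exact h2
  refine mem_closure_of_tendsto hsymm ?_
  filter_upwards [hxt.eventually (e.open_target.mem_nhds hept), self_mem_nhdsWithin] with s hs hs0
  have hs0' : 0 < s := hs0
  have hys : e.symm (x s) ∈ e.source := e.map_target hs
  have hright : e (e.symm (x s)) = x s := e.right_inv hs
  have h0 : F (e.symm (x s)) = 0 := by
    have h1 := heg _ hys 0
    rw [hright] at h1
    have h2 := heg _ hpe 0
    have h3 : (x s) 0 = (e p) 0 := by
      show (e p - s • EuclideanSpace.single 1 (1 : ℝ) : E) 0 = (e p) 0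
      simp
    rw [h3, h2] at h1
    have h4 : F p = F (e.symm (x s)) := h1
    rw [← h4]
    exact hp.2
  have h1 : ‖e.symm (x s)‖ ^ 2 = 1 - s := by
    have h1 := heg _ hys 1
    rw [hright] at h1
    have h2 := heg _ hpe 1
    have h3 : (x s) 1 = (e p) 1 - s := by
      show (e p - s • EuclideanSpace.single 1 (1 : ℝ) : E) 1 = (e p) 1 - s
      simp
    rw [h3, h2] at h1
    have h4 : (∑ k, p k * p k) - s = ∑ k, e.symm (x s) k * e.symm (x s) k := h1
    have h5 : ∑ k, p k * p k = 1 := by
      rw [← hpn]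
      exact Finset.sum_congr rfl fun k _ => (sq (p k)).symm
    rw [norm_sq, ← h5, h4]
    exact Finset.sum_congr rfl fun k _ => sq _
  refine ⟨?_, h0⟩
  have h2 := norm_nonneg (e.symm (x s))
  nlinarith

theorem surf_subset (h : FBMS F) : surf F ⊆ closure (inn F) := by
  intro y hy
  rcases lt_or_eq_of_le hy.1 with h1 | h1
  · exact subset_closure ⟨h1, hy.2⟩
  · exact bdry_subset h ⟨h1, hy.2⟩

end Pool.Agent.Helper78.FB
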