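import Pool.Agent.Helper78.FB.Defs

/-!
# FB: auxiliary definitions of the proof

* `lap F f`: the Laplacian of `f` along the surface (trace of the Hessian over the tangent plane).
* `nd f y`: the derivative of `f` in the direction `y` (the conormal derivative at boundary points).
* `uu F`: the support function `⟨y, N⟩`; `ww F a b = y_a F_b - y_b F_a`: the rotation functions; `kap F = A(y, y)`; `crs F y = y × N`.
* `Par l s f`: `f ∘ refl l = s f`; `sg j l = -1` if `j = l`, else `1`.
-/

set_option autoImplicit false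

open MeasureTheory
open scoped ContDiff

namespace Pool.Agent.Helper78.FB

noncomputable def lap (F f : E → ℝ) (y : E) : ℝ :=
  ∑ i, pd i (pd i f) y - ∑ i, ∑ j, pd i F y * pd j F y * pd i (pd j f) y

noncomputable def nd (f : E → ℝ) (y : E) : ℝ := ∑ k, y k * pd k f y

noncomputable def uu (F : E → ℝ) (y : E) : ℝ := ∑ i, y i * pd i F y

noncomputable def ww (F : E → ℝ) (a b : Fin 3) (y : E) : ℝ := y a * pd b F y - y b * pd a F y

noncomputable def kap (F : E → ℝ) (y : E) : ℝ := ∑ i, ∑ j, y i * y j * pd i (pd j F) y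

/-- The components of `y × N`. -/
noncomputable def crs (F : E → ℝ) (y : E) : Fin 3 → ℝ := ![ww F 1 2 y, ww F 2 0 y, ww F 0 1 y]

def Par (l : Fin 3) (s : ℝ) (f : E → ℝ) : Prop := ∀ y, f (refl l y) = s * f y

noncomputable def sg (j l : Fin 3) : ℝ := if j = l then -1 else 1

/-- The hypotheses of the theorem. -/
structure Hyp (F : E → ℝ) : Prop where
  fb : FBMS F
  even : ∀ l, Par l 1 F
  conn : IsPreconnected (inn F)
  nflat : ∃ y ∈ surf F, normA F y ≠ 0
  index : IndexLeFour F

end Pool.Agent.Helper78.FB
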