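import Mathlib

/-!
# FB: definitions (free boundary minimal surfaces in the unit ball of `ℝ³`)

* `surf F`, `bdry F`, `inn F`: the surface `{F = 0}` in the closed unit ball, its boundary on the unit sphere, its interior part.
* `pd i f`: the `i`-th partial derivative. Near the surface the gradient of `F` has length `1`: it is the unit normal.
* `area F f`, `len F f`: the integrals of `f` over the surface (area measure `(π / 4) μH[2]`) and over the boundary (`μH[1]`).
* `divS F X`: the divergence of the vector field `X` along the surface.
* `FBMS F`: `surf F` is a free boundary minimal surface, by the first variation formula.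
* `tang F f g`: the scalar product of the tangential gradients; `normA F`: the square of the norm of the second fundamental form;
  `Q F f g`: the second variation form; `IndexLeFour F`: the Morse index is at most four.
* `refl l y`: the reflection in the coordinate plane `y l = 0`.
-/

set_option autoImplicit false

open MeasureTheory
open scoped ContDiff

namespace Pool.Agent.Helper78.FB

/-- Euclidean space. -/
abbrev E := EuclideanSpace ℝ (Fin 3)

/-- The surface. -/
def surf (F : E → ℝ) : Set E := {y | ‖y‖ ≤ 1 ∧ F y = 0}

/-- The boundary of the surface. -/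
def bdry (F : E → ℝ) : Set E := {y | ‖y‖ = 1 ∧ F y = 0}

/-- The interior of the surface. -/
def inn (F : E → ℝ) : Set E := {y | ‖y‖ < 1 ∧ F y = 0}

/-- The `i`-th partial derivative. -/
noncomputable def pd (i : Fin 3) (f : E → ℝ) (y : E) : ℝ := fderiv ℝ f y (EuclideanSpace.single i 1)

/-- The integral over the surface. -/
noncomputable def area (F : E → ℝ) (f : E → ℝ) : ℝ := Real.pi / 4 * ∫ y in surf F, f y ∂μH[2]

/-- The integral over the boundary. -/
noncomputable def len (F : E → ℝ) (f : E → ℝ) : ℝ := ∫ y in bdry F, f y ∂μH[1]

/-- The divergence along the surface. -/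
noncomputable def divS (F : E → ℝ) (X : Fin 3 → E → ℝ) (y : E) : ℝ :=
  ∑ i, pd i (X i) y - ∑ i, ∑ j, pd i F y * pd j F y * pd j (X i) y

/-- `surf F` is a smooth surface with finite area and smooth boundary of finite length on the unit sphere, and is stationary with free
boundary. -/
structure FBMS (F : E → ℝ) : Prop where
  smooth : ContDiff ℝ ∞ F
  unit : ∃ U : Set E, IsOpen U ∧ surf F ⊆ U ∧ ∀ y ∈ U, ∑ i, pd i F y ^ 2 = 1
  transverse : ∀ y ∈ bdry F, (∑ i, y i * pd i F y) ^ 2 < 1
  finArea : μH[2] (surf F) < ⊤
  finLen : μH[1] (bdry F) < ⊤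
  firstVar : ∀ X : Fin 3 → E → ℝ, (∀ i, ContDiff ℝ ∞ (X i)) →
    area F (divS F X) = len F (fun y => ∑ i, X i y * y i)

/-- The scalar product of the tangential gradients. -/
noncomputable def tang (F f g : E → ℝ) (y : E) : ℝ :=
  ∑ i, pd i f y * pd i g y - (∑ i, pd i F y * pd i f y) * ∑ i, pd i F y * pd i g y

/-- The square of the norm of the second fundamental form. -/
noncomputable def normA (F : E → ℝ) (y : E) : ℝ := ∑ i, ∑ j, pd i (pd j F) y ^ 2

/-- The second variation of area. -/
noncomputable def Q (F f g : E → ℝ) : ℝ :=
  area F (fun y => tang F f g y - normA F y * (f y * g y)) - len F (fun y => f y * g y)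

/-- There is no five-dimensional space on which the second variation is negative definite. -/
def IndexLeFour (F : E → ℝ) : Prop :=
  ∀ f : Fin 5 → E → ℝ, (∀ i, ContDiff ℝ ∞ (f i)) →
    ∃ c : Fin 5 → ℝ, c ≠ 0 ∧ 0 ≤ Q F (fun y => ∑ i, c i * f i y) (fun y => ∑ i, c i * f i y)

/-- The reflection in the plane `y l = 0`. -/
noncomputable def refl (l : Fin 3) (y : E) : E := y - (2 * y l) • EuclideanSpace.single l (1 : ℝ)

end Pool.Agent.Helper78.FB
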