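import Pool.Agent.Helper78.FB.PdCalc

/-!
# FB-03 Eik: identities from `|∇F| = 1` near the surface (short)

On the open set `U` of `h.unit`: `∑_i F_i ^ 2 = 1`. Applying `pd j` (locally constant function; `pd_congr`, `pd_sum`, `pd_mul`): `2 ∑_i F_i F_ij = 0` on `U`; applying `pd k`:
`∑_i (F_ik F_ij + F_i F_ijk) = 0` on `U`. `eik3`: contract `eik2` with `F_j`: `∑_j F_j F_ij = 0`, so the first sum vanishes.
-/

set_option autoImplicit false

open MeasureTheory Filter
open scoped ContDiff Topology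

namespace Pool.Agent.Helper78.FB

variable {F : E → ℝ}

private theorem sum_sq_nhds (h : FBMS F) : ∃ U : Set E, IsOpen U ∧ surf F ⊆ U ∧
    (∀ y ∈ U, ∑ i, pd i F y ^ 2 = 1) ∧
    (∀ y ∈ U, ∀ j, ∑ i, pd i F y * pd j (pd i F) y = 0) ∧
    ∀ y ∈ U, ∀ j k, ∑ i, (pd k (pd i F) y * pd j (pd i F) y +
      pd i F y * pd k (pd j (pd i F)) y) = 0 := by
  obtain ⟨U, hU, hsub, hsq⟩ := h.unit
  have hF := h.smooth
  have h1 : ∀ y ∈ U, ∀ j, ∑ i, pd i F y * pd j (pd i F) y = 0 := by
    intro y hy j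
    have hc : (fun y => ∑ i, pd i F y * pd i F y) =ᶠ[𝓝 y] fun _ => (1 : ℝ) := by
      filter_upwards [hU.mem_nhds hy] with z hz
      rw [← hsq z hz]
      exact Finset.sum_congr rfl fun i _ => (sq _).symm
    have h2 := pd_congr j hc
    rw [pd_const, pd_sum j Finset.univ (fun i y => pd i F y * pd i F y)
      fun i _ => (contDiff_pd i hF).mul (contDiff_pd i hF)] at h2
    have h3 : ∀ i, pd j (fun y => pd i F y * pd i F y) y = 2 * (pd i F y * pd j (pd i F) y) := by
      intro i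
      rw [pd_mul j (contDiff_pd i hF) (contDiff_pd i hF)]
      ring
    have h4 : ∑ i, pd j (fun y => pd i F y * pd i F y) y = 0 := h2
    rw [Finset.sum_congr rfl fun i _ => h3 i, ← Finset.mul_sum] at h4
    linarith
  refine ⟨U, hU, hsub, hsq, h1, ?_⟩
  intro y hy j k
  have hc : (fun y => ∑ i, pd i F y * pd j (pd i F) y) =ᶠ[𝓝 y] fun _ => (0 : ℝ) := by
    filter_upwards [hU.mem_nhds hy] with z hz
    exact h1 z hz j
  have h2 := pd_congr k hc
  rw [pd_const, pd_sum k Finset.univ (fun i y => pd i F y * pd j (pd i F) y)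
    fun i _ => (contDiff_pd i hF).mul (contDiff_pd j (contDiff_pd i hF))] at h2
  have h3 : ∀ i, pd k (fun y => pd i F y * pd j (pd i F) y) y =
      pd k (pd i F) y * pd j (pd i F) y + pd i F y * pd k (pd j (pd i F)) y := by
    intro i
    rw [pd_mul k (contDiff_pd i hF) (contDiff_pd j (contDiff_pd i hF))]
  rw [← Finset.sum_congr rfl fun i _ => h3 i]
  exact h2

theorem grad_sq (h : FBMS F) {y : E} (hy : y ∈ surf F) : ∑ i, pd i F y ^ 2 = 1 := by
  obtain ⟨U, -, hsub, hsq⟩ := h.unit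
  exact hsq y (hsub hy)

theorem eik1 (h : FBMS F) {y : E} (hy : y ∈ surf F) (j : Fin 3) : ∑ i, pd i F y * pd j (pd i F) y = 0 := by
  obtain ⟨U, -, hsub, -, h1, -⟩ := sum_sq_nhds h
  exact h1 y (hsub hy) j

theorem eik2 (h : FBMS F) {y : E} (hy : y ∈ surf F) (j k : Fin 3) :
    ∑ i, (pd k (pd i F) y * pd j (pd i F) y + pd i F y * pd k (pd j (pd i F)) y) = 0 := by
  obtain ⟨U, -, hsub, -, -, h2⟩ := sum_sq_nhds h
  exact h2 y (hsub hy) j k

theorem eik3 (h : FBMS F) {y : E} (hy : y ∈ surf F) (m : Fin 3) :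
    ∑ i, ∑ j, pd i F y * pd j F y * pd i (pd j (pd m F)) y = 0 := by
  have hF := h.smooth
  have hs : ∀ i j, pd i (pd j (pd m F)) y = pd m (pd j (pd i F)) y := by
    intro i j
    rw [pd_comm m j (contDiff_pd i hF), pd_comm m i hF, pd_comm j i (contDiff_pd m hF)]
  have hb : ∀ i j, pd j (pd i F) y = pd i (pd j F) y := by
    intro i j
    rw [pd_comm j i hF]
  have h1 : ∑ i, ∑ j, pd i F y * pd j F y * pd i (pd j (pd m F)) y =
      ∑ j, pd j F y * ∑ i, pd i F y * pd m (pd j (pd i F)) y := by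
    rw [Finset.sum_comm]
    refine Finset.sum_congr rfl fun j _ => ?_
    rw [Finset.mul_sum]
    refine Finset.sum_congr rfl fun i _ => ?_
    rw [hs]
    ring
  have h2 : ∀ j, ∑ i, pd i F y * pd m (pd j (pd i F)) y =
      -∑ i, pd m (pd i F) y * pd j (pd i F) y := by
    intro j
    have h3 := eik2 h hy j m
    rw [Finset.sum_add_distrib] at h3
    linarith
  have h4 : ∑ j, pd j F y * ∑ i, pd m (pd i F) y * pd j (pd i F) y =
      ∑ i, pd m (pd i F) y * ∑ j, pd j F y * pd i (pd j F) y := by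
    simp only [Finset.mul_sum]
    rw [Finset.sum_comm]
    refine Finset.sum_congr rfl fun i _ => Finset.sum_congr rfl fun j _ => ?_
    rw [hb i j]
    ring
  have h5 : ∑ i, pd m (pd i F) y * ∑ j, pd j F y * pd i (pd j F) y = 0 := by
    refine Finset.sum_eq_zero fun i _ => ?_
    rw [eik1 h hy i, mul_zero]
  rw [h1, Finset.sum_congr rfl fun j _ => by rw [h2 j, mul_neg], Finset.sum_neg_distrib, h4, h5,
    neg_zero]

end Pool.Agent.Helper78.FB
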