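import Pool.Agent.Helper78.FB.Eik
import Pool.Agent.Helper78.FB.Straight

/-!
# FB-05 HalfConn: near a point of the plane `y l = 0` the half of the surface is connected

`z ∈ inn F`, `z l = 0`, `pd l F z = 0`. Let `N = ∇F(z)` (`|N| = 1`, `grad_sq`), `τ = N × e_l` (`|τ| = 1` because `N_l = 0`). Apply `straighten` to `g_0 = F`, `g_1 = y_l`, `g_2 = ∑ τ_i y_i`: the gradients at `z` are
`N`, `e_l`, `τ` and the determinant is `|N × e_l| ^ 2 = 1` (`det_cross` with `a = N`, `b = e_l`). Let `e` be the local homeomorphism; `e z = (0, 0, c)`. Choose `ε > 0` such that the cube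
`C = {x | |x_0| < ε, |x_1| < ε, |x_2 - c| < ε}` is contained in `e.target ∩ e.symm ⁻¹' (V ∩ ball 0 1)` (open), and `W = e.source ∩ e ⁻¹' C` (open). Then
`inn F ∩ {0 < y l} ∩ W = e.symm '' {x ∈ C | x_0 = 0, 0 < x_1}`, the image of a nonempty convex set under a continuous map.
-/

set_option autoImplicit false

open MeasureTheory Filter
open scoped ContDiff Topology

namespace Pool.Agent.Helper78.FB

variable {F : E → ℝ}

theorem half_conn (h : FBMS F) (l : Fin 3) (z : E) (hz : z ∈ inn F) (hl : z l = 0) (hN : pd l F z = 0)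
    (V : Set E) (hV : IsOpen V) (hzV : z ∈ V) :
    ∃ W : Set E, IsOpen W ∧ z ∈ W ∧ W ⊆ V ∧ IsPreconnected (inn F ∩ {y | 0 < y l} ∩ W) ∧
      (inn F ∩ {y | 0 < y l} ∩ W).Nonempty := by
  have hzs : z ∈ surf F := ⟨hz.1.le, hz.2⟩
  obtain ⟨a, ha⟩ : ∃ a : Fin 3 → ℝ, a = fun j => pd j F z := ⟨_, rfl⟩
  obtain ⟨b, hb⟩ : ∃ b : Fin 3 → ℝ, b = fun j => if j = l then 1 else 0 := ⟨_, rfl⟩
  obtain ⟨c, hc⟩ : ∃ c : Fin 3 → ℝ,
      c = ![a 1 * b 2 - a 2 * b 1, a 2 * b 0 - a 0 * b 2, a 0 * b 1 - a 1 * b 0] := ⟨_, rfl⟩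
  obtain ⟨g, hg⟩ : ∃ g : Fin 3 → E → ℝ, g = ![F, fun y => y l, fun y => ∑ k, c k * y k] :=
    ⟨_, rfl⟩
  have hg0 : g 0 = F := by rw [hg]; rfl
  have hg1 : g 1 = fun y => y l := by rw [hg]; rfl
  have hg2 : g 2 = fun y => ∑ k, c k * y k := by rw [hg]; rfl
  have hsm : ∀ i, ContDiff ℝ ∞ (g i) := by
    intro i
    fin_cases i
    · change ContDiff ℝ ∞ (g 0)
      rw [hg0]
      exact h.smooth
    · change ContDiff ℝ ∞ (g 1)
      rw [hg1]
      exact contDiff_coord l
    · change ContDiff ℝ ∞ (g 2)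
      rw [hg2]
      exact ContDiff.sum fun k _ => contDiff_const.mul (contDiff_coord k)
  have hp2 : ∀ j, pd j (g 2) z = c j := by
    intro j
    rw [hg2, pd_sum j Finset.univ (fun k y => c k * y k)
      (fun k _ => contDiff_const.mul (contDiff_coord k))]
    have h1 : ∀ k, pd j (fun y : E => c k * y k) z = c k * if j = k then 1 else 0 := by
      intro k
      rw [pd_const_mul j (c k) (contDiff_coord k), pd_coord]
    simp only [h1]
    simp
  have hmat : (Matrix.of fun i j : Fin 3 => pd j (g i) z) = Matrix.of ![a, b, c] := by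
    ext i j
    fin_cases i
    · change pd j (g 0) z = a j
      rw [hg0, ha]
    · change pd j (g 1) z = b j
      rw [hg1, hb, pd_coord]
    · change pd j (g 2) z = c j
      exact hp2 j
  have haa : ∑ i, a i ^ 2 = 1 := by
    rw [ha]
    exact grad_sq h hzs
  have hbb : ∑ i, b i ^ 2 = 1 := by
    rw [hb]
    simp
  have hab : ∑ i, a i * b i = 0 := by
    rw [hb]
    simp only [mul_ite, mul_one, mul_zero, Finset.sum_ite_eq', Finset.mem_univ, if_true]
    rw [ha]
    exact hN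
  have hdet : (Matrix.of fun i j : Fin 3 => pd j (g i) z).det ≠ 0 := by
    rw [hmat, hc, det_cross, haa, hbb, hab]
    norm_num
  obtain ⟨e, hze, heg, _⟩ := straighten g hsm z hdet
  have he0 : ∀ y ∈ e.source, e y 0 = F y := fun y hy => by rw [heg y hy 0, hg0]
  have he1 : ∀ y ∈ e.source, e y 1 = y l := fun y hy => by rw [heg y hy 1, hg1]
  have hO : IsOpen (e.target ∩ e.symm ⁻¹' (V ∩ Metric.ball 0 1)) :=
    e.isOpen_inter_preimage_symm (hV.inter Metric.isOpen_ball)
  have hezO : e z ∈ e.target ∩ e.symm ⁻¹' (V ∩ Metric.ball 0 1) := by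
    refine ⟨e.map_source hze, ?_⟩
    change e.symm (e z) ∈ V ∩ Metric.ball 0 1
    rw [e.left_inv hze]
    exact ⟨hzV, by rw [mem_ball_zero_iff]; exact hz.1⟩
  obtain ⟨ε, hε, hB⟩ := Metric.isOpen_iff.1 hO _ hezO
  have hset : inn F ∩ {y | 0 < y l} ∩ (e.source ∩ e ⁻¹' Metric.ball (e z) ε) =
      e.symm '' (Metric.ball (e z) ε ∩ ({x | x 0 = 0} ∩ {x | 0 < x 1})) := by
    apply Set.Subset.antisymm
    · rintro y ⟨⟨hy1, hy2⟩, hy3, hy4⟩
      refine ⟨e y, ⟨hy4, ?_, ?_⟩, e.left_inv hy3⟩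
      · change e y 0 = 0
        rw [he0 y hy3]
        exact hy1.2
      · change 0 < e y 1
        rw [he1 y hy3]
        exact hy2
    · rintro y ⟨x, ⟨hx1, hx2, hx3⟩, hxy⟩
      have hxO := hB hx1
      have hxs : y ∈ e.source := by
        rw [← hxy]
        exact e.map_target hxO.1
      have hxe : e y = x := by
        rw [← hxy]
        exact e.right_inv hxO.1
      have k1 : ‖y‖ < 1 := by
        have h1 : e.symm x ∈ Metric.ball (0 : E) 1 := hxO.2.2
        rwa [hxy, mem_ball_zero_iff] at h1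
      have k2 : F y = 0 := by
        rw [← he0 _ hxs, hxe]
        exact hx2
      have k3 : 0 < y l := by
        rw [← he1 _ hxs, hxe]
        exact hx3
      have k4 : e y ∈ Metric.ball (e z) ε := by
        rw [hxe]
        exact hx1
      have m1 : y ∈ inn F := ⟨k1, k2⟩
      have m3 : y ∈ e ⁻¹' Metric.ball (e z) ε := Set.mem_preimage.2 k4
      exact Set.mem_inter (Set.mem_inter m1 k3) (Set.mem_inter hxs m3)
  have w1 : IsOpen (e.source ∩ e ⁻¹' Metric.ball (e z) ε) :=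
    e.isOpen_inter_preimage Metric.isOpen_ball
  have w2 : z ∈ e.source ∩ e ⁻¹' Metric.ball (e z) ε :=
    Set.mem_inter hze (Set.mem_preimage.2 (Metric.mem_ball_self hε))
  have w3 : e.source ∩ e ⁻¹' Metric.ball (e z) ε ⊆ V := by
    intro y hy
    have h2 : e y ∈ e.target ∩ e.symm ⁻¹' (V ∩ Metric.ball 0 1) := hB (Set.mem_preimage.1 hy.2)
    have h1 := (Set.mem_preimage.1 h2.2).1
    rwa [e.left_inv hy.1] at h1
  refine ⟨_, w1, w2, w3, ?_, ?_⟩
  · rw [hset]
    have hconv : Convex ℝ (Metric.ball (e z) ε ∩ ({x : E | x 0 = 0} ∩ {x : E | 0 < x 1})) := by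
      refine (convex_ball _ _).inter (Convex.inter ?_ ?_)
      · exact convex_hyperplane
          (f := (EuclideanSpace.proj (0 : Fin 3) : E →L[ℝ] ℝ)) (LinearMap.isLinear _) 0
      · exact convex_halfSpace_gt
          (f := (EuclideanSpace.proj (1 : Fin 3) : E →L[ℝ] ℝ)) (LinearMap.isLinear _) 0
    refine hconv.isPreconnected.image _ (e.continuousOn_symm.mono ?_)
    intro x hx
    exact (hB hx.1).1
  · rw [hset]
    refine Set.Nonempty.image _ ⟨e z + (ε / 2) • EuclideanSpace.single 1 (1 : ℝ), ?_, ?_, ?_⟩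
    · rw [Metric.mem_ball, dist_eq_norm, add_sub_cancel_left, norm_smul,
        PiLp.norm_single, Real.norm_of_nonneg (by positivity), norm_one, mul_one]
      linarith
    · change (e z + (ε / 2) • EuclideanSpace.single 1 (1 : ℝ) : E) 0 = 0
      have h1 : (e z + (ε / 2) • EuclideanSpace.single 1 (1 : ℝ) : E) 0 = e z 0 := by simp
      rw [h1, he0 z hze]
      exact hz.2
    · change 0 < (e z + (ε / 2) • EuclideanSpace.single 1 (1 : ℝ) : E) 1
      have h1 : (e z + (ε / 2) • EuclideanSpace.single 1 (1 : ℝ) : E) 1 = e z 1 + ε / 2 := by simp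
      rw [h1, he1 z hze, hl]
      linarith

end Pool.Agent.Helper78.FB
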