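import Pool.Agent.Helper78.FB.Eik
import Pool.Agent.Helper78.FB.Straight

/-!
# FB-08 PosLen: open parts of the boundary have positive length

`p ∈ bdry F`, `a = ∇F(p)`, `b = 2 p`, `c = a × b ≠ 0` (`h.transverse`, `grad_sq`). `straighten` with `g_0 = F`, `g_1 = |y| ^ 2`, `g_2 = ∑ c_i y_i` (`det_cross`): for `t` near `g_2 p` the point `e.symm (0, 1, t)` is in
`bdry F ∩ ball p ε`. So the image of this set under the Lipschitz map `g_2 : E → ℝ` contains an open interval; `μH[1] = volume` on `ℝ` (`MeasureTheory.hausdorffMeasure_real`), `LipschitzWith.hausdorffMeasure_image_le`.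
-/

set_option autoImplicit false

open MeasureTheory Filter
open scoped ContDiff Topology

namespace Pool.Agent.Helper78.FB

variable {F : E → ℝ}

theorem pos_len (h : FBMS F) {p : E} (hp : p ∈ bdry F) {ε : ℝ} (hε : 0 < ε) :
    0 < μH[1] (bdry F ∩ Metric.ball p ε) := by
  obtain ⟨hp1, hp0⟩ := id hp
  have hps : p ∈ surf F := ⟨hp1.le, hp0⟩
  -- the three coordinate functions
  obtain ⟨a, ha⟩ : ∃ a : Fin 3 → ℝ, a = fun i => pd i F p := ⟨_, rfl⟩
  obtain ⟨b, hb⟩ : ∃ b : Fin 3 → ℝ, b = fun i => 2 * p i := ⟨_, rfl⟩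
  obtain ⟨c, hc⟩ : ∃ c : Fin 3 → ℝ, c = ![a 1 * b 2 - a 2 * b 1, a 2 * b 0 - a 0 * b 2, a 0 * b 1 - a 1 * b 0] :=
    ⟨_, rfl⟩
  obtain ⟨L, hL⟩ : ∃ L : E →L[ℝ] ℝ, ∀ y, L y = ∑ k, c k * y k :=
    ⟨∑ k, c k • EuclideanSpace.proj k, fun y => by simp⟩
  obtain ⟨q, hq⟩ : ∃ q : E → ℝ, q = fun y => ∑ k, y k * y k := ⟨_, rfl⟩
  have hqs : ContDiff ℝ ∞ q := by
    rw [hq]
    exact ContDiff.sum fun k _ => (contDiff_coord k).mul (contDiff_coord k)
  have hqn : ∀ y, q y = ‖y‖ ^ 2 := by
    intro y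
    rw [hq, norm_sq]
    simp only [pow_two]
  have hpdL : ∀ j y, pd j (fun y => L y) y = c j := by
    intro j y
    have e1 : (fun y => L y) = fun y => ∑ k, c k * y k := funext hL
    rw [e1, pd_sum j Finset.univ (fun k y => c k * y k) (fun k _ => contDiff_const.mul (contDiff_coord k))]
    have e2 : ∀ k, pd j (fun y : E => c k * y k) = fun _ => c k * (if j = k then 1 else 0) := by
      intro k
      rw [pd_const_mul j (c k) (contDiff_coord k), pd_coord]
    simp only [e2]
    simp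
  have hpdq : ∀ j y, pd j q y = 2 * y j := by
    intro j y
    rw [hq, pd_sum j Finset.univ (fun k y => y k * y k) (fun k _ => (contDiff_coord k).mul (contDiff_coord k))]
    have e2 : ∀ k, pd j (fun y : E => y k * y k) = fun y => (if j = k then 1 else 0) * y k + y k * (if j = k then 1 else 0) := by
      intro k
      rw [pd_mul j (contDiff_coord k) (contDiff_coord k), pd_coord]
    simp only [e2]
    rw [Finset.sum_eq_single j]
    · simp; ring
    · intro k _ hk
      rw [if_neg (Ne.symm hk)]; ring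
    · intro h; exact absurd (Finset.mem_univ j) h
  have hmat : (Matrix.of fun i j : Fin 3 => pd j ((![F, q, fun y => L y] : Fin 3 → E → ℝ) i) p) = Matrix.of ![a, b, c] := by
    ext i j
    fin_cases i
    · change pd j F p = a j
      rw [ha]
    · change pd j q p = b j
      rw [hpdq, hb]
    · change pd j (fun y => L y) p = c j
      exact hpdL j p
  have hdet : (Matrix.of fun i j : Fin 3 => pd j ((![F, q, fun y => L y] : Fin 3 → E → ℝ) i) p).det ≠ 0 := by
    rw [hmat, hc, det_cross]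
    have h1 : ∑ i, a i ^ 2 = 1 := by rw [ha]; exact grad_sq h hps
    have h2 : ∑ i, b i ^ 2 = 4 := by
      rw [hb]
      have h3 : ∑ i, (2 * p i) ^ 2 = 4 * ∑ i, p i ^ 2 := by
        rw [Finset.mul_sum]
        exact Finset.sum_congr rfl fun i _ => by ring
      rw [h3, ← norm_sq, hp1]; norm_num
    have h4 : ∑ i, a i * b i = 2 * ∑ i, p i * pd i F p := by
      rw [ha, hb, Finset.mul_sum]
      exact Finset.sum_congr rfl fun i _ => by ring
    rw [h1, h2, h4]
    have h5 := h.transverse p hp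
    nlinarith
  obtain ⟨e, hpe, he, -⟩ := straighten (![F, q, fun y => L y]) (by
    intro i
    fin_cases i
    · exact h.smooth
    · exact hqs
    · exact L.contDiff) p hdet
  have he0 : ∀ y ∈ e.source, e y 0 = F y := fun y hy => he y hy 0
  have he1 : ∀ y ∈ e.source, e y 1 = q y := fun y hy => he y hy 1
  have he2 : ∀ y ∈ e.source, e y 2 = L y := fun y hy => he y hy 2
  -- the curve
  obtain ⟨γ, hγ⟩ : ∃ γ : ℝ → E, γ = fun t => e p + (t - L p) • EuclideanSpace.single (2 : Fin 3) (1 : ℝ) := ⟨_, rfl⟩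
  have hγp : γ (L p) = e p := by rw [hγ]; simp
  have hγc : Continuous γ := by rw [hγ]; fun_prop
  have hγ0 : ∀ t, γ t 0 = 0 := by
    intro t
    rw [hγ]
    simp [he0 p hpe, hp0]
  have hγ1 : ∀ t, γ t 1 = 1 := by
    intro t
    rw [hγ]
    simp [he1 p hpe, hqn, hp1]
  have hγ2 : ∀ t, γ t 2 = t := by
    intro t
    rw [hγ]
    simp [he2 p hpe]
  have hcont : Tendsto (fun t => e.symm (γ t)) (𝓝 (L p)) (𝓝 p) := by
    have h1 : Tendsto e.symm (𝓝 (e p)) (𝓝 p) := by
      have h2 := e.symm.continuousAt (x := e p) (e.map_source hpe)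
      rwa [ContinuousAt, e.left_inv hpe] at h2
    have h3 : Tendsto γ (𝓝 (L p)) (𝓝 (e p)) := by
      have h4 := hγc.tendsto (L p)
      rwa [hγp] at h4
    exact h1.comp h3
  have htarget : ∀ᶠ t in 𝓝 (L p), γ t ∈ e.target := by
    have h1 : e.target ∈ 𝓝 (γ (L p)) := by
      rw [hγp]
      exact e.open_target.mem_nhds (e.map_source hpe)
    exact hγc.continuousAt.eventually_mem h1
  have hball : ∀ᶠ t in 𝓝 (L p), e.symm (γ t) ∈ Metric.ball p ε := hcont.eventually_mem (Metric.ball_mem_nhds p hε)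
  obtain ⟨δ, hδ, hδ2⟩ := Metric.eventually_nhds_iff_ball.1 (htarget.and hball)
  have hsub : Metric.ball (L p) δ ⊆ L '' (bdry F ∩ Metric.ball p ε) := by
    intro t ht
    obtain ⟨h1, h2⟩ := hδ2 t ht
    have hs : e.symm (γ t) ∈ e.source := e.map_target h1
    have hr : e (e.symm (γ t)) = γ t := e.right_inv h1
    refine ⟨e.symm (γ t), ⟨⟨?_, ?_⟩, h2⟩, ?_⟩
    · have h3 : ‖e.symm (γ t)‖ ^ 2 = 1 := by
        rw [← hqn, ← he1 _ hs, hr, hγ1]
      exact (pow_eq_one_iff_of_nonneg (norm_nonneg _) two_ne_zero).1 h3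
    · rw [← he0 _ hs, hr, hγ0]
    · rw [← he2 _ hs, hr, hγ2]
  have h1 : 0 < μH[1] (L '' (bdry F ∩ Metric.ball p ε)) := by
    refine lt_of_lt_of_le ?_ (measure_mono hsub)
    rw [hausdorffMeasure_real, Real.volume_ball]
    exact ENNReal.ofReal_pos.2 (by positivity)
  have h2 := L.lipschitz.hausdorffMeasure_image_le zero_le_one (bdry F ∩ Metric.ball p ε)
  by_contra hcon
  have h3 : μH[1] (bdry F ∩ Metric.ball p ε) = 0 := by
    rcases eq_or_ne (μH[1] (bdry F ∩ Metric.ball p ε)) 0 with h | h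
    · exact h
    · exact absurd (pos_iff_ne_zero.2 h) hcon
  rw [h3, mul_zero] at h2
  exact absurd (le_antisymm h2 zero_le) h1.ne'

end Pool.Agent.Helper78.FB
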