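import Pool.Agent.Helper78.FB.PosArea
import Pool.Agent.Helper78.FB.PosLen

/-!
# FB-09 Integ: integration over the surface and the boundary

`surf F`, `bdry F` are closed and bounded, so compact, of finite measure (`h.finArea`, `h.finLen`): continuous functions are integrable (`ContinuousOn.integrableOn_compact`-like needs a locally finite measure; use
`Measure.integrableOn_of_bounded` with `IsCompact.exists_bound_of_continuousOn` and measurability `ContinuousOn.aestronglyMeasurable`). `area_pos`: `f > f z / 2` on `surf F ∩ ball z ε`, which has positive measure (`pos_area`).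
`area_tendsto`: dominated convergence on the finite measure `μH[2].restrict (surf F)`.
-/

set_option autoImplicit false

open MeasureTheory Filter
open scoped ContDiff Topology

namespace Pool.Agent.Helper78.FB

variable {F : E → ℝ} {f g : E → ℝ}

theorem isCompact_surf (h : FBMS F) : IsCompact (surf F) := by
  have e : surf F = Metric.closedBall (0 : E) 1 ∩ F ⁻¹' {0} := by
    ext y
    simp [surf]
  rw [e]
  exact (isCompact_closedBall (0 : E) 1).inter_right (isClosed_singleton.preimage h.smooth.continuous)

theorem isCompact_bdry (h : FBMS F) : IsCompact (bdry F) := by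
  have e : bdry F = Metric.sphere (0 : E) 1 ∩ F ⁻¹' {0} := by
    ext y
    simp [bdry]
  rw [e]
  exact (isCompact_sphere (0 : E) 1).inter_right (isClosed_singleton.preimage h.smooth.continuous)

section generic

variable {μ : Measure E} {K : Set E}

private theorem int_cont (hK : IsCompact K) (hμ : μ K < ⊤) (hf : ContinuousOn f K) : IntegrableOn f K μ := by
  obtain ⟨C, hC⟩ := hK.exists_bound_of_continuousOn hf
  have : IsFiniteMeasure (μ.restrict K) := ⟨by rw [Measure.restrict_apply_univ]; exact hμ⟩
  exact Integrable.of_bound (hf.aestronglyMeasurable hK.measurableSet) C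
    ((ae_restrict_iff' hK.measurableSet).2 (Eventually.of_forall hC))

private theorem int_pos (hK : IsCompact K) (hμ : μ K < ⊤) (hf : ContinuousOn f K) (hn : ∀ y ∈ K, 0 ≤ f y) {z : E}
    (hz : z ∈ K) (hfz : 0 < f z) (hp : ∀ ε : ℝ, 0 < ε → 0 < μ (K ∩ Metric.ball z ε)) : 0 < ∫ y in K, f y ∂μ := by
  rw [setIntegral_pos_iff_support_of_nonneg_ae ((ae_restrict_iff' hK.measurableSet).2 (Eventually.of_forall hn))
    (int_cont hK hμ hf)]
  have h1 : ∀ᶠ y in 𝓝[K] z, 0 < f y := (hf z hz).eventually (lt_mem_nhds hfz)
  rw [eventually_nhdsWithin_iff, Metric.eventually_nhds_iff_ball] at h1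
  obtain ⟨ε, hε, h2⟩ := h1
  refine (hp ε hε).trans_le (measure_mono ?_)
  rintro y ⟨hyK, hyε⟩
  exact ⟨(h2 y hyε hyK).ne', hyK⟩

private theorem int_tendsto (hK : IsCompact K) (hμ : μ K < ⊤) (φ : ℕ → E → ℝ) (g : E → ℝ)
    (hφ : ∀ n, ContinuousOn (φ n) K) (C : ℝ) (hC : ∀ n, ∀ y ∈ K, |φ n y| ≤ C)
    (hlim : ∀ y ∈ K, Tendsto (fun n => φ n y) atTop (𝓝 (g y))) :
    Tendsto (fun n => ∫ y in K, φ n y ∂μ) atTop (𝓝 (∫ y in K, g y ∂μ)) := by
  refine tendsto_integral_of_dominated_convergence (fun _ => C) (fun n => (hφ n).aestronglyMeasurable hK.measurableSet)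
    ?_ (fun n => ?_) ?_
  · exact int_cont hK hμ continuousOn_const
  · exact (ae_restrict_iff' hK.measurableSet).2 (Eventually.of_forall (hC n))
  · exact (ae_restrict_iff' hK.measurableSet).2 (Eventually.of_forall hlim)

end generic

theorem area_congr (hfg : ∀ y ∈ surf F, f y = g y) (h : FBMS F) : area F f = area F g := by
  unfold area
  rw [setIntegral_congr_fun (isCompact_surf h).measurableSet hfg]

theorem len_congr (hfg : ∀ y ∈ bdry F, f y = g y) (h : FBMS F) : len F f = len F g := by
  unfold len
  rw [setIntegral_congr_fun (isCompact_bdry h).measurableSet hfg]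

theorem area_add (h : FBMS F) (hf : ContinuousOn f (surf F)) (hg : ContinuousOn g (surf F)) :
    area F (fun y => f y + g y) = area F f + area F g := by
  unfold area
  rw [integral_add (int_cont (isCompact_surf h) h.finArea hf) (int_cont (isCompact_surf h) h.finArea hg), mul_add]

theorem len_add (h : FBMS F) (hf : ContinuousOn f (bdry F)) (hg : ContinuousOn g (bdry F)) :
    len F (fun y => f y + g y) = len F f + len F g := by
  unfold len
  rw [integral_add (int_cont (isCompact_bdry h) h.finLen hf) (int_cont (isCompact_bdry h) h.finLen hg)]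

theorem area_sub (h : FBMS F) (hf : ContinuousOn f (surf F)) (hg : ContinuousOn g (surf F)) :
    area F (fun y => f y - g y) = area F f - area F g := by
  unfold area
  rw [integral_sub (int_cont (isCompact_surf h) h.finArea hf) (int_cont (isCompact_surf h) h.finArea hg), mul_sub]

theorem len_sub (h : FBMS F) (hf : ContinuousOn f (bdry F)) (hg : ContinuousOn g (bdry F)) :
    len F (fun y => f y - g y) = len F f - len F g := by
  unfold len
  rw [integral_sub (int_cont (isCompact_bdry h) h.finLen hf) (int_cont (isCompact_bdry h) h.finLen hg)]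

theorem area_const_mul (c : ℝ) : area F (fun y => c * f y) = c * area F f := by
  unfold area
  rw [integral_const_mul]
  ring

theorem len_const_mul (c : ℝ) : len F (fun y => c * f y) = c * len F f := by
  unfold len
  rw [integral_const_mul]

theorem area_nonneg (h : FBMS F) (hf : ∀ y ∈ surf F, 0 ≤ f y) : 0 ≤ area F f := by
  unfold area
  exact mul_nonneg (by positivity) (setIntegral_nonneg (isCompact_surf h).measurableSet hf)

theorem len_nonneg (h : FBMS F) (hf : ∀ y ∈ bdry F, 0 ≤ f y) : 0 ≤ len F f := by
  unfold len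
  exact setIntegral_nonneg (isCompact_bdry h).measurableSet hf

theorem area_mono (h : FBMS F) (hf : ContinuousOn f (surf F)) (hg : ContinuousOn g (surf F))
    (hfg : ∀ y ∈ surf F, f y ≤ g y) : area F f ≤ area F g := by
  unfold area
  exact mul_le_mul_of_nonneg_left (setIntegral_mono_on (int_cont (isCompact_surf h) h.finArea hf)
    (int_cont (isCompact_surf h) h.finArea hg) (isCompact_surf h).measurableSet hfg) (by positivity)

theorem len_mono (h : FBMS F) (hf : ContinuousOn f (bdry F)) (hg : ContinuousOn g (bdry F))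
    (hfg : ∀ y ∈ bdry F, f y ≤ g y) : len F f ≤ len F g := by
  unfold len
  exact setIntegral_mono_on (int_cont (isCompact_bdry h) h.finLen hf)
    (int_cont (isCompact_bdry h) h.finLen hg) (isCompact_bdry h).measurableSet hfg

theorem area_pos (h : FBMS F) (hf : ContinuousOn f (surf F)) (hn : ∀ y ∈ surf F, 0 ≤ f y) {z : E}
    (hz : z ∈ surf F) (hfz : 0 < f z) : 0 < area F f := by
  unfold area
  exact mul_pos (by positivity) (int_pos (isCompact_surf h) h.finArea hf hn hz hfz fun ε hε => pos_area h hz hε)

theorem len_pos (h : FBMS F) (hf : ContinuousOn f (bdry F)) (hn : ∀ y ∈ bdry F, 0 ≤ f y) {z : E}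
    (hz : z ∈ bdry F) (hfz : 0 < f z) : 0 < len F f := by
  unfold len
  exact int_pos (isCompact_bdry h) h.finLen hf hn hz hfz fun ε hε => pos_len h hz hε

theorem area_tendsto (h : FBMS F) (φ : ℕ → E → ℝ) (g : E → ℝ) (hφ : ∀ n, ContinuousOn (φ n) (surf F)) (C : ℝ)
    (hC : ∀ n, ∀ y ∈ surf F, |φ n y| ≤ C)
    (hlim : ∀ y ∈ surf F, Tendsto (fun n => φ n y) atTop (𝓝 (g y))) :
    Tendsto (fun n => area F (φ n)) atTop (𝓝 (area F g)) := by
  unfold area
  exact (int_tendsto (isCompact_surf h) h.finArea φ g hφ C hC hlim).const_mul _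

theorem len_tendsto (h : FBMS F) (φ : ℕ → E → ℝ) (g : E → ℝ) (hφ : ∀ n, ContinuousOn (φ n) (bdry F)) (C : ℝ)
    (hC : ∀ n, ∀ y ∈ bdry F, |φ n y| ≤ C)
    (hlim : ∀ y ∈ bdry F, Tendsto (fun n => φ n y) atTop (𝓝 (g y))) :
    Tendsto (fun n => len F (φ n)) atTop (𝓝 (len F g)) := by
  unfold len
  exact int_tendsto (isCompact_bdry h) h.finLen φ g hφ C hC hlim

end Pool.Agent.Helper78.FB
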