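import Pool.Agent.Helper78.FB.PdCalc

/-!
# FB-02 Parity: the reflections (short)

`refl l y = y - 2 y_l e_l`, so `(refl l y) j = sg j l * y j`. `par_pd`: differentiate `f (refl l y) = s f y` (chain rule for the linear map `refl l`, `refl l e_j = sg j l • e_j`):
`sg j l * pd j f (refl l y) = s * pd j f y`, and `sg j l ^ 2 = 1`. The other statements about `normA`, `uu`, `ww`, `kap`, `tang`, `lap` follow from `par_pd`, `par_mul`, `par_sum`
(in every term each index occurs twice, `sg j l * sg j l = 1`). `par_zero`: if `y l = 0` then `refl l y = y`, so `f y = - f y`.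
`mem_*`: `‖refl l y‖ = ‖y‖`, `F (refl l y) = F y`.
-/

set_option autoImplicit false

open MeasureTheory Filter
open scoped ContDiff Topology

namespace Pool.Agent.Helper78.FB

variable {f g : E → ℝ} (l j : Fin 3)

private theorem sg_cases (j l : Fin 3) : sg j l = 1 ∨ sg j l = -1 := by
  unfold sg
  by_cases h : j = l
  · exact Or.inr (if_pos h)
  · exact Or.inl (if_neg h)

theorem refl_apply (y : E) : refl l y j = sg j l * y j := by
  unfold refl sg
  by_cases h : j = l
  · subst h
    simp
    ring
  · simp [h]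

theorem refl_refl (y : E) : refl l (refl l y) = y := by
  ext j
  rw [refl_apply, refl_apply]
  rcases sg_cases j l with h | h <;> rw [h] <;> ring

theorem norm_refl (y : E) : ‖refl l y‖ = ‖y‖ := by
  have h1 : ‖refl l y‖ ^ 2 = ‖y‖ ^ 2 := by
    rw [norm_sq, norm_sq]
    refine Finset.sum_congr rfl fun k _ => ?_
    rw [refl_apply]
    rcases sg_cases k l with h | h <;> rw [h] <;> ring
  exact (pow_left_inj₀ (norm_nonneg _) (norm_nonneg _) two_ne_zero).mp h1

theorem refl_of_zero (y : E) (h : y l = 0) : refl l y = y := by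
  unfold refl
  rw [h, mul_zero, zero_smul, sub_zero]

private theorem refl_sub' (x y : E) : refl l x - refl l y = refl l (x - y) := by
  ext j
  rw [PiLp.sub_apply, refl_apply, refl_apply, refl_apply, PiLp.sub_apply]
  ring

theorem isometry_refl : Isometry (refl l) := by
  refine Isometry.of_dist_eq fun x y => ?_
  rw [dist_eq_norm, dist_eq_norm, refl_sub', norm_refl]

theorem contDiff_refl : ContDiff ℝ ∞ (refl l) :=
  contDiff_id.sub ((contDiff_const.mul (contDiff_coord l)).smul contDiff_const)

theorem sg_mul_self : sg j l * sg j l = 1 := by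
  rcases sg_cases j l with h | h <;> rw [h] <;> norm_num

theorem par_const (c : ℝ) : Par l 1 (fun _ => c) := fun _ => (one_mul c).symm

theorem par_add {s : ℝ} (hf : Par l s f) (hg : Par l s g) : Par l s (fun y => f y + g y) := by
  intro y
  change f (refl l y) + g (refl l y) = s * (f y + g y)
  rw [hf y, hg y]
  ring

theorem par_mul {s t : ℝ} (hf : Par l s f) (hg : Par l t g) : Par l (s * t) (fun y => f y * g y) := by
  intro y
  change f (refl l y) * g (refl l y) = s * t * (f y * g y)
  rw [hf y, hg y]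
  ring

theorem par_const_mul {s : ℝ} (c : ℝ) (hf : Par l s f) : Par l s (fun y => c * f y) := by
  intro y
  change c * f (refl l y) = s * (c * f y)
  rw [hf y]
  ring

theorem par_sum {ι : Type} (u : Finset ι) (φ : ι → E → ℝ) {s : ℝ} (h : ∀ k ∈ u, Par l s (φ k)) :
    Par l s (fun y => ∑ k ∈ u, φ k y) := by
  intro y
  change ∑ k ∈ u, φ k (refl l y) = s * ∑ k ∈ u, φ k y
  rw [Finset.mul_sum]
  exact Finset.sum_congr rfl fun k hk => h k hk y

theorem par_coord : Par l (sg j l) (fun y => y j) := fun y => refl_apply l j y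

theorem par_comp (ψ : ℝ → ℝ) (hf : Par l 1 f) : Par l 1 (fun y => ψ (f y)) := by
  intro y
  change ψ (f (refl l y)) = 1 * ψ (f y)
  rw [hf y, one_mul, one_mul]

theorem par_pd {s : ℝ} (hs : s * s = 1) (hf : ContDiff ℝ ∞ f) (h : Par l s f) : Par l (sg j l * s) (pd j f) := by
  intro y
  have _hs := hs
  have hγ0 : HasDerivAt (fun t : ℝ => y + t • EuclideanSpace.single j (1 : ℝ))
      (EuclideanSpace.single j (1 : ℝ)) 0 := by
    have h1 := (hasDerivAt_id (0 : ℝ)).smul_const (EuclideanSpace.single j (1 : ℝ) : E)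
    rw [one_smul] at h1
    exact h1.const_add y
  have hγ1 : HasDerivAt (fun t : ℝ => refl l y + t • (sg j l • EuclideanSpace.single j (1 : ℝ)))
      (sg j l • EuclideanSpace.single j (1 : ℝ)) 0 := by
    have h1 := (hasDerivAt_id (0 : ℝ)).smul_const (sg j l • EuclideanSpace.single j (1 : ℝ) : E)
    rw [one_smul] at h1
    exact h1.const_add (refl l y)
  have e1 := hasDerivAt_comp hf _ _ 0 hγ0
  have e2 := hasDerivAt_comp hf _ _ 0 hγ1
  rw [zero_smul, add_zero] at e1 e2
  have e3 : (fun t : ℝ => f (refl l y + t • (sg j l • EuclideanSpace.single j (1 : ℝ)))) =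
      fun t => s * f (y + t • EuclideanSpace.single j (1 : ℝ)) := by
    funext t
    have e4 : refl l y + t • (sg j l • EuclideanSpace.single j (1 : ℝ)) =
        refl l (y + t • EuclideanSpace.single j (1 : ℝ)) := by
      ext k
      rw [refl_apply, PiLp.add_apply, PiLp.smul_apply, PiLp.smul_apply, refl_apply,
        PiLp.add_apply, PiLp.smul_apply, EuclideanSpace.single_apply]
      by_cases hk : k = j
      · rw [if_pos hk, hk]
        simp only [smul_eq_mul]
        ring
      · rw [if_neg hk]
        simp only [smul_eq_mul]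
        ring
    rw [e4]
    exact h _
  rw [e3] at e2
  have e5 := e2.unique (e1.const_mul s)
  have e6 : ∀ (a : ℝ) (z : E), ∑ k, (a • EuclideanSpace.single j (1 : ℝ) : E) k * pd k f z =
      a * pd j f z := by
    intro a z
    rw [Finset.sum_eq_single j]
    · rw [PiLp.smul_apply, EuclideanSpace.single_apply, if_pos rfl, smul_eq_mul, mul_one]
    · intro k _ hk
      rw [PiLp.smul_apply, EuclideanSpace.single_apply, if_neg hk, smul_eq_mul, mul_zero, zero_mul]
    · intro hk
      exact absurd (Finset.mem_univ j) hk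
  have e7 : ∑ k, (EuclideanSpace.single j (1 : ℝ) : E) k * pd k f y = pd j f y := by
    have := e6 1 y
    rwa [one_smul, one_mul] at this
  rw [e6, e7] at e5
  calc pd j f (refl l y) = sg j l * sg j l * pd j f (refl l y) := by rw [sg_mul_self, one_mul]
    _ = sg j l * (sg j l * pd j f (refl l y)) := by ring
    _ = sg j l * s * pd j f y := by rw [e5]; ring

theorem par_zero (h : Par l (-1) f) {y : E} (hy : y l = 0) : f y = 0 := by
  have h1 := h y
  rw [refl_of_zero l y hy] at h1
  linarith

variable {F : E → ℝ}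

theorem par_tang (hF : ContDiff ℝ ∞ F) (he : Par l 1 F) {s t : ℝ} (hs : s * s = 1) (ht : t * t = 1)
    (hf : ContDiff ℝ ∞ f) (hg : ContDiff ℝ ∞ g) (h : Par l s f) (h' : Par l t g) : Par l (s * t) (tang F f g) := by
  intro y
  have h1 : ∀ i, pd i F (refl l y) = sg i l * 1 * pd i F y :=
    fun i => par_pd l i (one_mul 1) hF he y
  have h2 : ∀ i, pd i f (refl l y) = sg i l * s * pd i f y := fun i => par_pd l i hs hf h y
  have h3 : ∀ i, pd i g (refl l y) = sg i l * t * pd i g y := fun i => par_pd l i ht hg h' y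
  unfold tang
  simp only [h1, h2, h3, Fin.sum_univ_three]
  rcases sg_cases 0 l with a0 | a0 <;> rcases sg_cases 1 l with a1 | a1 <;>
    rcases sg_cases 2 l with a2 | a2 <;> rw [a0, a1, a2] <;> ring

private theorem par_pd2 {F : E → ℝ} (l : Fin 3) (hF : ContDiff ℝ ∞ F) (he : Par l 1 F) (i j : Fin 3)
    (y : E) : pd i (pd j F) (refl l y) = sg i l * sg j l * pd i (pd j F) y := by
  have h1 : Par l (sg j l * 1) (pd j F) := par_pd l j (one_mul 1) hF he
  have h2 : (sg j l * 1) * (sg j l * 1) = 1 := by
    rw [mul_one, sg_mul_self]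
  have h3 := par_pd l i h2 (contDiff_pd j hF) h1 y
  rw [h3]
  ring

theorem par_normA (hF : ContDiff ℝ ∞ F) (he : Par l 1 F) : Par l 1 (normA F) := by
  intro y
  unfold normA
  rw [one_mul]
  refine Finset.sum_congr rfl fun i _ => Finset.sum_congr rfl fun j _ => ?_
  rw [par_pd2 l hF he]
  rcases sg_cases i l with a0 | a0 <;> rcases sg_cases j l with a1 | a1 <;> rw [a0, a1] <;> ring

theorem par_uu (hF : ContDiff ℝ ∞ F) (he : Par l 1 F) : Par l 1 (uu F) := by
  intro y
  have h1 : ∀ i, pd i F (refl l y) = sg i l * 1 * pd i F y :=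
    fun i => par_pd l i (one_mul 1) hF he y
  unfold uu
  rw [one_mul]
  refine Finset.sum_congr rfl fun i _ => ?_
  rw [h1, refl_apply]
  rcases sg_cases i l with a0 | a0 <;> rw [a0] <;> ring

theorem par_ww (hF : ContDiff ℝ ∞ F) (he : Par l 1 F) (a b : Fin 3) :
    Par l (sg a l * sg b l) (ww F a b) := by
  intro y
  have h1 : ∀ i, pd i F (refl l y) = sg i l * 1 * pd i F y :=
    fun i => par_pd l i (one_mul 1) hF he y
  unfold ww
  rw [h1, h1, refl_apply, refl_apply]
  ring

theorem par_kap (hF : ContDiff ℝ ∞ F) (he : Par l 1 F) : Par l 1 (kap F) := by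
  intro y
  unfold kap
  rw [one_mul]
  refine Finset.sum_congr rfl fun i _ => Finset.sum_congr rfl fun j _ => ?_
  rw [par_pd2 l hF he, refl_apply, refl_apply]
  rcases sg_cases i l with a0 | a0 <;> rcases sg_cases j l with a1 | a1 <;> rw [a0, a1] <;> ring

theorem mem_surf (he : Par l 1 F) {y : E} : refl l y ∈ surf F ↔ y ∈ surf F := by
  unfold surf
  rw [Set.mem_setOf_eq, Set.mem_setOf_eq, norm_refl, he y, one_mul]

theorem mem_bdry (he : Par l 1 F) {y : E} : refl l y ∈ bdry F ↔ y ∈ bdry F := by
  unfold bdry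
  rw [Set.mem_setOf_eq, Set.mem_setOf_eq, norm_refl, he y, one_mul]

theorem mem_inn (he : Par l 1 F) {y : E} : refl l y ∈ inn F ↔ y ∈ inn F := by
  unfold inn
  rw [Set.mem_setOf_eq, Set.mem_setOf_eq, norm_refl, he y, one_mul]

end Pool.Agent.Helper78.FB
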