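import Pool.Agent.Helper78.FB.ADefs

/-!
# FB-01 PdCalc: calculus of the partial derivatives `pd i f` (short, Mathlib)

`pd i f y = fderiv ℝ f y (EuclideanSpace.single i 1)`. All functions are smooth (`ContDiff ℝ ∞`).

* `contDiff_pd`: `ContDiff.fderiv_right`, applied to a fixed vector. `pd_comm`: symmetry of the second derivative (`ContDiffAt.isSymmSndFDerivAt`,
  `second_derivative_symmetric`), `fderiv` of `y ↦ fderiv ℝ f y v` is `fun w => fderiv ℝ (fderiv ℝ f) y w v`.
* `fderiv_eq`: `v = ∑ v i • EuclideanSpace.single i 1`. `hasDerivAt_comp`: `HasFDerivAt.comp_hasDerivAt`.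
-/

set_option autoImplicit false

open MeasureTheory Filter
open scoped ContDiff Topology

namespace Pool.Agent.Helper78.FB

variable {f g : E → ℝ} (i j : Fin 3)

theorem contDiff_pd (hf : ContDiff ℝ ∞ f) : ContDiff ℝ ∞ (pd i f) := by
  exact (hf.fderiv_right (m := ∞) (by simp)).clm_apply contDiff_const

theorem pd_comm (hf : ContDiff ℝ ∞ f) : pd i (pd j f) = pd j (pd i f) := by
  have hd : Differentiable ℝ (fderiv ℝ f) := (hf.fderiv_right (m := ∞) (by simp)).differentiable (by simp)
  have key : ∀ (a b : Fin 3) (y : E), pd a (pd b f) y =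
      fderiv ℝ (fderiv ℝ f) y (EuclideanSpace.single a 1) (EuclideanSpace.single b 1) := by
    intro a b y
    have h1 : HasFDerivAt (fun z => fderiv ℝ f z (EuclideanSpace.single b (1 : ℝ)))
        ((fderiv ℝ (fderiv ℝ f) y).flip (EuclideanSpace.single b (1 : ℝ))) y := by
      have h2 := (hd y).hasFDerivAt.clm_apply (hasFDerivAt_const (EuclideanSpace.single b (1 : ℝ)) y)
      simpa using h2
    show fderiv ℝ (fun z => fderiv ℝ f z (EuclideanSpace.single b (1 : ℝ))) y (EuclideanSpace.single a 1) = _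
    rw [h1.fderiv]
    rfl
  funext y
  rw [key, key]
  have hs : IsSymmSndFDerivAt ℝ f y := (hf.contDiffAt (x := y)).isSymmSndFDerivAt
    (by simp only [minSmoothness_of_isRCLikeNormedField]; exact WithTop.coe_le_coe.2 (le_top : (2 : ℕ∞) ≤ ⊤))
  exact hs _ _

theorem pd_const (c : ℝ) : pd i (fun _ : E => c) = fun _ => 0 := by
  funext y
  simp [pd]

theorem pd_add (hf : ContDiff ℝ ∞ f) (hg : ContDiff ℝ ∞ g) :
    pd i (fun y => f y + g y) = fun y => pd i f y + pd i g y := by
  funext y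
  have h := fderiv_fun_add (hf.differentiable (by simp) y) (hg.differentiable (by simp) y)
  simp only [pd, h, ContinuousLinearMap.add_apply]

theorem pd_sub (hf : ContDiff ℝ ∞ f) (hg : ContDiff ℝ ∞ g) :
    pd i (fun y => f y - g y) = fun y => pd i f y - pd i g y := by
  funext y
  have h := fderiv_fun_sub (hf.differentiable (by simp) y) (hg.differentiable (by simp) y)
  simp only [pd, h, ContinuousLinearMap.sub_apply]

theorem pd_neg (hf : ContDiff ℝ ∞ f) : pd i (fun y => -f y) = fun y => -pd i f y := by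
  funext y
  have h := fderiv_fun_neg (𝕜 := ℝ) (f := f) (x := y)
  simp only [pd, h, ContinuousLinearMap.neg_apply]

theorem pd_const_mul (c : ℝ) (hf : ContDiff ℝ ∞ f) : pd i (fun y => c * f y) = fun y => c * pd i f y := by
  funext y
  have h := fderiv_const_mul (hf.differentiable (by simp) y) c
  simp only [pd, h, ContinuousLinearMap.smul_apply, smul_eq_mul]

theorem pd_mul (hf : ContDiff ℝ ∞ f) (hg : ContDiff ℝ ∞ g) :
    pd i (fun y => f y * g y) = fun y => pd i f y * g y + f y * pd i g y := by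
  funext y
  have h := fderiv_fun_mul (hf.differentiable (by simp) y) (hg.differentiable (by simp) y)
  simp only [pd, h, ContinuousLinearMap.add_apply, ContinuousLinearMap.smul_apply, smul_eq_mul]
  ring

theorem pd_sum {ι : Type} (s : Finset ι) (φ : ι → E → ℝ) (h : ∀ k ∈ s, ContDiff ℝ ∞ (φ k)) :
    pd i (fun y => ∑ k ∈ s, φ k y) = fun y => ∑ k ∈ s, pd i (φ k) y := by
  funext y
  have h1 := fderiv_fun_sum (𝕜 := ℝ) (x := y) (u := s) (A := φ) (fun k hk => (h k hk).differentiable (by simp) y)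
  simp only [pd, h1, ContinuousLinearMap.sum_apply]

theorem contDiff_coord : ContDiff ℝ ∞ (fun y : E => y j) := by
  exact (EuclideanSpace.proj j : E →L[ℝ] ℝ).contDiff

theorem pd_coord : pd i (fun y : E => y j) = fun _ => if i = j then 1 else 0 := by
  funext y
  have h : HasFDerivAt (fun y : E => y j) (EuclideanSpace.proj j : E →L[ℝ] ℝ) y :=
    (EuclideanSpace.proj j : E →L[ℝ] ℝ).hasFDerivAt
  show fderiv ℝ (fun y : E => y j) y (EuclideanSpace.single i 1) = _
  rw [h.fderiv]
  show (EuclideanSpace.single i (1 : ℝ) : E) j = _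
  rw [EuclideanSpace.single_apply]
  by_cases hij : i = j
  · rw [if_pos hij, if_pos hij.symm]
  · rw [if_neg hij, if_neg (Ne.symm hij)]

theorem pd_comp (ψ : ℝ → ℝ) (hψ : ContDiff ℝ ∞ ψ) (hf : ContDiff ℝ ∞ f) :
    pd i (fun y => ψ (f y)) = fun y => deriv ψ (f y) * pd i f y := by
  funext y
  have h1 : HasDerivAt ψ (deriv ψ (f y)) (f y) := (hψ.differentiable (by simp) (f y)).hasDerivAt
  have h2 : HasFDerivAt f (fderiv ℝ f y) y := (hf.differentiable (by simp) y).hasFDerivAt
  have h3 := h1.comp_hasFDerivAt y h2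
  show fderiv ℝ (fun y => ψ (f y)) y (EuclideanSpace.single i 1) = _
  have h4 : fderiv ℝ (fun y => ψ (f y)) y = deriv ψ (f y) • fderiv ℝ f y := h3.fderiv
  rw [h4]
  rfl

theorem pd_congr {y : E} (h : f =ᶠ[𝓝 y] g) : pd i f y = pd i g y := by
  show fderiv ℝ f y (EuclideanSpace.single i 1) = fderiv ℝ g y (EuclideanSpace.single i 1)
  rw [h.fderiv_eq]

theorem fderiv_eq (hf : ContDiff ℝ ∞ f) (y v : E) : fderiv ℝ f y v = ∑ k, v k * pd k f y := by
  have hv : v = ∑ k, v k • (EuclideanSpace.single k (1 : ℝ) : E) := by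
    ext m
    simp [Finset.sum_apply, Fin.sum_univ_three, EuclideanSpace.single_apply]
    fin_cases m <;> simp
  conv_lhs => rw [hv]
  rw [map_sum]
  apply Finset.sum_congr rfl
  intro k _
  rw [map_smul, smul_eq_mul]
  rfl

theorem hasDerivAt_comp (hf : ContDiff ℝ ∞ f) (γ : ℝ → E) (γ' : E) (s : ℝ) (hγ : HasDerivAt γ γ' s) :
    HasDerivAt (fun s => f (γ s)) (∑ k, γ' k * pd k f (γ s)) s := by
  have h2 : HasFDerivAt f (fderiv ℝ f (γ s)) (γ s) := (hf.differentiable (by simp) (γ s)).hasFDerivAt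
  have h3 := h2.comp_hasDerivAt s hγ
  rw [← fderiv_eq hf]
  exact h3

theorem norm_sq (y : E) : ‖y‖ ^ 2 = ∑ k, y k ^ 2 := by
  rw [EuclideanSpace.real_norm_sq_eq]

end Pool.Agent.Helper78.FB
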