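import Pool.Agent.Helper78.FB.Dense

/-!
# FB-07 PosArea: open parts of the surface have positive area

By `surf_subset` it is enough to treat `z ∈ inn F` (a smaller ball around a nearby interior point). `∇F(z) ≠ 0`, so `pd k F z ≠ 0` for an index `k`; let `i, j` be the other two. `straighten` with `g_0 = F`, `g_1 = y_i`,
`g_2 = y_j` (determinant `± pd k F z`), local homeomorphism `e`; as the target is open, for `(s, t)` near `(z_i, z_j)` the point `e.symm (0, s, t)` is in `inn F ∩ ball z ε`. So the image of `surf F ∩ ball z ε` under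
`π : E → (Fin 2 → ℝ)`, `π y = ![y i, y j]`, contains a nonempty open set `V`. `π` is `1`-Lipschitz for the sup norm on `Fin 2 → ℝ` (`LipschitzWith.hausdorffMeasure_image_le`, `LipschitzOnWith.hausdorffMeasure_image_le`), and
`μH[2] = volume` on `Fin 2 → ℝ` (`MeasureTheory.hausdorffMeasure_pi_real`), `0 < volume V`.
-/

set_option autoImplicit false

open MeasureTheory Filter
open scoped ContDiff Topology

namespace Pool.Agent.Helper78.FB

variable {F : E → ℝ}

private noncomputable def pa_g (F : E → ℝ) (k : Fin 3) : Fin 3 → E → ℝ :=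
  ![F, fun y => y (k + 1), fun y => y (k + 2)]

private theorem pa_det (F : E → ℝ) (k : Fin 3) (z : E) :
    (Matrix.of fun i j : Fin 3 => pd j (pa_g F k i) z).det = pd k F z := by
  have h0 : ∀ j, pd j (pa_g F k 0) z = pd j F z := fun j => rfl
  have h1 : ∀ j, pd j (pa_g F k 1) z = if j = k + 1 then 1 else 0 := fun j => by
    change pd j (fun y : E => y (k + 1)) z = _
    rw [pd_coord]
  have h2 : ∀ j, pd j (pa_g F k 2) z = if j = k + 2 then 1 else 0 := fun j => by
    change pd j (fun y : E => y (k + 2)) z = _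
    rw [pd_coord]
  rw [Matrix.det_fin_three]
  simp only [Matrix.of_apply, h0, h1, h2]
  fin_cases k <;> simp

private theorem pa_smooth (h : FBMS F) (k : Fin 3) : ∀ i, ContDiff ℝ ∞ (pa_g F k i) := by
  intro i
  fin_cases i
  · exact h.smooth
  · exact contDiff_coord (k + 1)
  · exact contDiff_coord (k + 2)

private def pa_pi (k : Fin 3) (y : E) : Fin 2 → ℝ := ![y (k + 1), y (k + 2)]

private theorem pa_lip (k : Fin 3) : LipschitzWith 1 (pa_pi k) := by
  refine LipschitzWith.of_dist_le_mul fun x y => ?_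
  rw [NNReal.coe_one, one_mul, dist_pi_le_iff dist_nonneg]
  have h : ∀ a : Fin 3, dist (x a) (y a) ≤ dist x y := by
    intro a
    rw [dist_eq_norm, dist_eq_norm]
    exact PiLp.norm_apply_le (x - y) a
  intro m
  fin_cases m
  · exact h (k + 1)
  · exact h (k + 2)

private theorem pa_inn (h : FBMS F) {z : E} (hz : z ∈ inn F) {W : Set E} (hW : IsOpen W) (hzW : z ∈ W) :
    0 < μH[2] (surf F ∩ W) := by
  have hzs : z ∈ surf F := ⟨hz.1.le, hz.2⟩
  obtain ⟨k, hk⟩ : ∃ k, pd k F z ≠ 0 := by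
    by_contra hcon
    push Not at hcon
    have h1 := grad_sq h hzs
    simp [hcon] at h1
  obtain ⟨e, hze, he, -⟩ := straighten (pa_g F k) (pa_smooth h k) z (by rw [pa_det]; exact hk)
  have hW' : IsOpen (W ∩ {y : E | ‖y‖ < 1}) := hW.inter (isOpen_lt continuous_norm continuous_const)
  have hO : IsOpen (e '' (e.source ∩ (W ∩ {y : E | ‖y‖ < 1}))) := e.isOpen_image_source_inter hW'
  let ι : (Fin 2 → ℝ) → E := fun s => WithLp.toLp 2 ![0, s 0, s 1]
  have hι : Continuous ι := by
    refine (PiLp.continuous_toLp 2 _).comp (continuous_pi fun m => ?_)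
    fin_cases m
    · exact continuous_const
    · exact continuous_apply (0 : Fin 2)
    · exact continuous_apply (1 : Fin 2)
  have hV : IsOpen (ι ⁻¹' (e '' (e.source ∩ (W ∩ {y : E | ‖y‖ < 1})))) := hO.preimage hι
  have hne : (ι ⁻¹' (e '' (e.source ∩ (W ∩ {y : E | ‖y‖ < 1})))).Nonempty := by
    refine ⟨pa_pi k z, z, ⟨hze, hzW, hz.1⟩, ?_⟩
    ext m
    rw [he z hze]
    fin_cases m
    · exact hz.2
    · rfl
    · rfl
  have hsub : ι ⁻¹' (e '' (e.source ∩ (W ∩ {y : E | ‖y‖ < 1}))) ⊆ pa_pi k '' (surf F ∩ W) := by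
    rintro s ⟨y, ⟨hye, hyW, hy1⟩, hy⟩
    have hc : ∀ m, pa_g F k m y = ι s m := fun m => by
      rw [← hy]
      exact (he y hye m).symm
    refine ⟨y, ⟨⟨le_of_lt hy1, hc 0⟩, hyW⟩, ?_⟩
    funext m
    fin_cases m
    · exact hc 1
    · exact hc 2
  have h1 : 0 < (volume : Measure (Fin 2 → ℝ)) (ι ⁻¹' (e '' (e.source ∩ (W ∩ {y : E | ‖y‖ < 1})))) :=
    hV.measure_pos _ hne
  have h2 : (μH[2] : Measure (Fin 2 → ℝ)) = volume := by
    have h3 := hausdorffMeasure_pi_real (ι := Fin 2)
    rwa [Fintype.card_fin, Nat.cast_ofNat] at h3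
  have h4 := (pa_lip k).hausdorffMeasure_image_le (d := 2) (by norm_num) (surf F ∩ W)
  rw [ENNReal.coe_one, ENNReal.one_rpow, one_mul, h2] at h4
  exact h1.trans_le ((measure_mono hsub).trans h4)

theorem pos_area (h : FBMS F) {z : E} (hz : z ∈ surf F) {ε : ℝ} (hε : 0 < ε) :
    0 < μH[2] (surf F ∩ Metric.ball z ε) := by
  obtain ⟨y, hy, hyz⟩ := Metric.mem_closure_iff.1 (surf_subset h hz) ε hε
  exact pa_inn h hy Metric.isOpen_ball (by rwa [Metric.mem_ball, dist_comm])

end Pool.Agent.Helper78.FB
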